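import Pool.Agent.R549.RE.Main

/-!
# Ramsey equivalence with a pair of complete graphs: assembling the cases
-/

set_option autoImplicit false

namespace Pool.Agent.R549.RE

open Finset

lemma iso_top {t n : ℕ} {G : SimpleGraph (Fin n)} (hG : ¬ G.CliqueFree t) (hn : n ≤ t) :
    Nonempty (G ≃g (⊤ : SimpleGraph (Fin t))) := by
  obtain ⟨f⟩ := not_cliqueFree_iff_hom.1 hG
  have hinj := hom_inj f
  have h1 := Fintype.card_le_of_injective f hinj
  rw [Fintype.card_fin, Fintype.card_fin] at h1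
  obtain rfl : n = t := le_antisymm hn h1
  have hsurj := Finite.surjective_of_injective hinj
  have htop : G = ⊤ := by
    ext x y
    refine ⟨fun h => h.ne, fun h => ?_⟩
    obtain ⟨a, rfl⟩ := hsurj x
    obtain ⟨b, rfl⟩ := hsurj y
    exact f.map_adj (fun hab => h (by rw [hab]))
  rw [htop]
  exact ⟨SimpleGraph.Iso.refl⟩

lemma exists_edge {n : ℕ} {G : SimpleGraph (Fin n)} (hG : G.Connected) (hn : 2 ≤ n) :
    ∃ x y, G.Adj x y := by
  obtain ⟨p⟩ := hG.preconnected ⟨0, by omega⟩ ⟨1, by omega⟩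
  cases p with
  | cons h p => exact ⟨_, _, h⟩

lemma arr_one {n m : ℕ} {G : SimpleGraph (Fin n)} {H : SimpleGraph (Fin m)} (hn : n ≤ 1) :
    Arr (⊥ : SimpleGraph (Fin 1)) G H := by
  intro R hR
  left
  have hs : ∀ a b : Fin n, a = b := fun a b => Fin.ext (by omega)
  exact ⟨⟨fun _ => 0, fun {a b} hab => absurd (hs a b) hab.ne⟩, fun a b _ => hs a b⟩

lemma not_arrK_one {t : ℕ} (ht : 2 ≤ t) :
    ¬ Arr (⊥ : SimpleGraph (Fin 1)) (⊤ : SimpleGraph (Fin t)) (⊤ : SimpleGraph (Fin t)) := by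
  rw [arrK_iff]
  push Not
  refine ⟨⊥, le_rfl, SimpleGraph.cliqueFree_bot ht, ?_⟩
  refine cliqueFree_of_hom (⟨id, fun {a b} hab => ?_⟩ : (⊥ : SimpleGraph (Fin 1)) \ ⊥ →g
    (⊥ : SimpleGraph (Fin 1))) (SimpleGraph.cliqueFree_bot ht)
  rw [SimpleGraph.sdiff_adj] at hab
  exact hab.1

lemma arrK_two : Arr (⊤ : SimpleGraph (Fin 2)) (⊤ : SimpleGraph (Fin 2))
    (⊤ : SimpleGraph (Fin 2)) := by
  intro R hR
  have h01 : ∀ (S : SimpleGraph (Fin 2)), S.Adj 0 1 → ∀ a b : Fin 2, a ≠ b → S.Adj a b := by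
    intro S hS a b hab
    fin_cases a <;> fin_cases b
    · exact absurd rfl hab
    · exact hS
    · exact hS.symm
    · exact absurd rfl hab
  by_cases h : R.Adj 0 1
  · left
    exact ⟨⟨id, fun {a b} hab => h01 R h a b hab⟩, fun a b h => h⟩
  · right
    refine ⟨⟨id, fun {a b} hab => h01 _ ?_ a b hab⟩, fun a b h => h⟩
    rw [SimpleGraph.sdiff_adj]
    exact ⟨by simp, h⟩

/-- A graph all whose copies in two vertices. -/
lemma arr_two {n m : ℕ} {G : SimpleGraph (Fin n)} {H : SimpleGraph (Fin m)}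
    (hH : ∃ x y, H.Adj x y) (h : Arr (⊤ : SimpleGraph (Fin 2)) G H) : n ≤ 2 := by
  rcases h ⊤ le_rfl with ⟨f, hf⟩ | ⟨f, -⟩
  · have := Fintype.card_le_of_injective f hf
    rwa [Fintype.card_fin, Fintype.card_fin] at this
  · obtain ⟨x, y, hxy⟩ := hH
    have := f.map_adj hxy
    rw [SimpleGraph.sdiff_adj] at this
    exact absurd this.1 this.2

lemma two_clique {n : ℕ} {G : SimpleGraph (Fin n)} (hG : ∃ x y, G.Adj x y) :
    ¬ G.CliqueFree 2 := by
  classical
  obtain ⟨x, y, hxy⟩ := hG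
  intro h
  apply h {x, y}
  rw [SimpleGraph.isNClique_iff]
  refine ⟨?_, card_pair hxy.ne⟩
  intro a ha b hb hab
  simp only [coe_insert, coe_singleton, Set.mem_insert_iff, Set.mem_singleton_iff] at ha hb
  rcases ha with rfl | rfl <;> rcases hb with rfl | rfl
  · exact absurd rfl hab
  · exact hxy
  · exact hxy.symm
  · exact absurd rfl hab

/-- **No pair of connected graphs other than `(K_t, K_t)` is Ramsey equivalent to `(K_t, K_t)`.** -/
theorem main {t n m : ℕ} (ht : 2 ≤ t) {G : SimpleGraph (Fin n)} {H : SimpleGraph (Fin m)}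
    (hG : G.Connected) (hH : H.Connected)
    (hne : ¬ (Nonempty (G ≃g (⊤ : SimpleGraph (Fin t))) ∧
      Nonempty (H ≃g (⊤ : SimpleGraph (Fin t)))))
    (hEq : ∀ (V : Type) [Finite V] (F : SimpleGraph V),
      Arr F G H ↔ Arr F (⊤ : SimpleGraph (Fin t)) (⊤ : SimpleGraph (Fin t))) : False := by
  have hEq' : ∀ (V : Type) [Finite V] (F : SimpleGraph V),
      Arr F H G ↔ Arr F (⊤ : SimpleGraph (Fin t)) (⊤ : SimpleGraph (Fin t)) := fun V _ F =>
    ⟨fun h => (hEq V F).1 (arr_swap h), fun h => arr_swap ((hEq V F).2 h)⟩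
  have hn : 2 ≤ n := by
    by_contra hn
    exact not_arrK_one ht ((hEq _ _).1 (arr_one (by omega)))
  have hm : 2 ≤ m := by
    by_contra hm
    exact not_arrK_one ht ((hEq' _ _).1 (arr_one (by omega)))
  have hGe := exists_edge hG hn
  have hHe := exists_edge hH hm
  rcases ht.eq_or_lt with rfl | ht
  · exact hne ⟨iso_top (two_clique hGe) (arr_two hHe ((hEq _ _).2 arrK_two)),
      iso_top (two_clique hHe) (arr_two hGe ((hEq' _ _).2 arrK_two))⟩
  have ht3 : 3 ≤ t := ht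
  by_cases hGt : G.CliqueFree t
  · by_cases hHR : Arr H (⊤ : SimpleGraph (Fin t)) (⊤ : SimpleGraph (Fin t))
    · exact caseB2 ht3 hGe hHR (fun V _ F h => (hEq V F).2 h)
    · obtain ⟨V, hV, F, h1, h2⟩ := caseB1 ht3 hGt hHR
      exact h2 ((hEq V F).1 h1)
  by_cases hHt : H.CliqueFree t
  · by_cases hGR : Arr G (⊤ : SimpleGraph (Fin t)) (⊤ : SimpleGraph (Fin t))
    · exact caseB2 ht3 hHe hGR (fun V _ F h => (hEq' V F).2 h)
    · obtain ⟨V, hV, F, h1, h2⟩ := caseB1 ht3 hHt hGR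
      exact h2 ((hEq' V F).1 h1)
  by_cases hnt : t < n
  · obtain ⟨V, hV, F, h1, h2⟩ := caseA ht3 hG hnt hGt hHt
    exact h2 ((hEq V F).2 h1)
  by_cases hmt : t < m
  · obtain ⟨V, hV, F, h1, h2⟩ := caseA ht3 hH hmt hHt hGt
    exact h2 ((hEq' V F).2 h1)
  exact hne ⟨iso_top hGt (by omega), iso_top hHt (by omega)⟩

/-- Transport to the vertex sets `Fin k`. -/
theorem transport {t n m : ℕ} {G : SimpleGraph (Fin n)} {H : SimpleGraph (Fin m)}
    (h : ∀ (k : ℕ) (F : SimpleGraph (Fin k)),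
      Arr F G H ↔ Arr F (⊤ : SimpleGraph (Fin t)) (⊤ : SimpleGraph (Fin t)))
    (V : Type) [Finite V] (F : SimpleGraph V) :
    Arr F G H ↔ Arr F (⊤ : SimpleGraph (Fin t)) (⊤ : SimpleGraph (Fin t)) := by
  classical
  have := Fintype.ofFinite V
  let e : V ≃ Fin (Fintype.card V) := Fintype.equivFin V
  let φ : F ≃g F.comap e.symm := ⟨e, by intro a b; simp⟩
  constructor
  · intro hF
    exact arr_iso φ.symm ((h _ _).1 (arr_iso φ hF))
  · intro hF
    exact arr_iso φ.symm ((h _ _).2 (arr_iso φ hF))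

end Pool.Agent.R549.RE
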