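import Pool.Agent.R549.RE.Typed

/-!
# The vertex gadget
-/

set_option autoImplicit false

namespace Pool.Agent.R549.RE

open Finset

/-- `G` contains a complete graph on `t` vertices. -/
lemma not_cliqueFree_iff_hom {V : Type*} {G : SimpleGraph V} {t : ℕ} :
    ¬ G.CliqueFree t ↔ Nonempty ((⊤ : SimpleGraph (Fin t)) →g G) := by
  rw [SimpleGraph.not_cliqueFree_iff_top_isContained]
  constructor
  · rintro ⟨f⟩
    exact ⟨f.toHom⟩
  · rintro ⟨f⟩
    have hinj : Function.Injective f := by
      intro x y h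
      by_contra hne
      have : G.Adj (f x) (f y) := f.map_adj hne
      exact this.ne h
    exact ⟨⟨f, hinj⟩⟩

lemma hom_inj {V : Type*} {G : SimpleGraph V} {t : ℕ} (f : (⊤ : SimpleGraph (Fin t)) →g G) :
    Function.Injective f := by
  intro x y h
  by_contra hne
  have : G.Adj (f x) (f y) := f.map_adj hne
  exact this.ne h

lemma cliqueFree_of_hom {V W : Type*} {G : SimpleGraph V} {H : SimpleGraph W} {t : ℕ}
    (φ : G →g H) (h : H.CliqueFree t) : G.CliqueFree t := by
  by_contra hc
  obtain ⟨f⟩ := not_cliqueFree_iff_hom.1 hc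
  exact not_cliqueFree_iff_hom.2 ⟨φ.comp f⟩ h

/-- **Folkman's theorem** for vertex colourings. -/
theorem vertexFolkman (s : ℕ) (hs : 1 ≤ s) (κ : Type) [Finite κ] [Nonempty κ] :
    ∃ (X : Type) (_ : Finite X) (Γ : SimpleGraph X), Γ.CliqueFree (s + 1) ∧
      ∀ w : X → κ, ∃ (S : Finset X) (c : κ), Γ.IsNClique s S ∧ ∀ x ∈ S, w x = c := by
  classical
  rcases hs.eq_or_lt with rfl | hs
  · refine ⟨Unit, inferInstance, ⊥, SimpleGraph.cliqueFree_bot le_rfl, fun w => ?_⟩
    refine ⟨{()}, w (), ⟨?_, by simp⟩, by simp⟩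
    intro x hx y hy hxy
    exact absurd (Subsingleton.elim x y) hxy
  · let A : Unit → SimpleGraph (Fin (s + 1)) := fun _ =>
      { Adj := fun x y => x ≠ y ∧ ((x : ℕ) + y ≠ s ∨ ((x : ℕ) ≠ 0 ∧ (y : ℕ) ≠ 0))
        symm := ⟨fun x y h => ⟨h.1.symm, by
          rcases h.2 with h | h
          · left; omega
          · right; exact h.symm⟩⟩
        loopless := ⟨fun x h => h.1 rfl⟩ }
    have hAfree : ∀ u, (A u).CliqueFree (s + 1) := by
      intro u S hS
      have h1 : S = univ := by
        apply eq_univ_of_card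
        rw [hS.card_eq, Fintype.card_fin]
      have h2 := hS.isClique (show (0 : Fin (s + 1)) ∈ (S : Set (Fin (s + 1))) by simp [h1])
        (show (Fin.last s) ∈ (S : Set (Fin (s + 1))) by simp [h1]) (by
          intro h
          have := congrArg Fin.val h
          simp at this
          omega)
      obtain ⟨-, h3⟩ := h2
      simp at h3
    obtain ⟨X, hX, Γ, -, hfree, hΓ⟩ := typedFolkmanI_fin (T := Unit) (fun _ => s) (fun _ => hs)
      (κ × κ) (s + 1) A (fun _ _ _ _ _ _ => rfl) hAfree
    refine ⟨X, hX, Γ (), hfree (), fun w => ?_⟩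
    obtain ⟨e, c, hinj, -, he⟩ := hΓ (fun x y => (w x, w y))
    have hadj : ∀ i j : Fin (s + 1), i < j → ((i : ℕ) ≠ 0 ∨ (j : ℕ) ≠ s) → (A ()).Adj i j := by
      intro i j hij h
      refine ⟨hij.ne, ?_⟩
      have h1 : (i : ℕ) < j := hij
      have h2 := j.2
      by_cases hi : (i : ℕ) = 0
      · left
        rcases h with h | h
        · exact absurd hi h
        · omega
      · right
        exact ⟨hi, by omega⟩
    have h01 := (he ⟨0, by omega⟩ ⟨1, by omega⟩ (by simp [Fin.lt_def]) ()
      (hadj _ _ (by simp [Fin.lt_def]) (Or.inr (by simp; omega)))).2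
    have h1s := (he ⟨1, by omega⟩ ⟨s, by omega⟩ (by simpa [Fin.lt_def] using hs) ()
      (hadj _ _ (by simpa [Fin.lt_def] using hs) (Or.inl (by simp)))).2
    have h0 : w (e ⟨0, by omega⟩) = (c ()).1 := congrArg Prod.fst h01
    have h1 : w (e ⟨1, by omega⟩) = (c ()).2 := congrArg Prod.snd h01
    have h1' : w (e ⟨1, by omega⟩) = (c ()).1 := congrArg Prod.fst h1s
    have hall : ∀ i : Fin s, w (e i.castSucc) = (c ()).1 := by
      intro i
      by_cases hi : (i : ℕ) = 0
      · rw [← h0]
        congr 2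
        exact Fin.ext (by simpa using hi)
      · have h2 := (he i.castSucc (Fin.last s) (Fin.castSucc_lt_last i) ()
          (hadj _ _ (Fin.castSucc_lt_last i) (Or.inl (by simpa using hi)))).2
        exact congrArg Prod.fst h2
    have hcl : ∀ i j : Fin s, i ≠ j → (Γ ()).Adj (e i.castSucc) (e j.castSucc) := by
      intro i j hij
      rcases lt_or_gt_of_ne hij with h | h
      · exact (he _ _ (by simpa using h) () (hadj _ _ (by simpa using h)
          (Or.inr (by simpa using j.2.ne)))).1
      · exact (he _ _ (by simpa using h) () (hadj _ _ (by simpa using h)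
          (Or.inr (by simpa using i.2.ne)))).1.symm
    refine ⟨univ.image fun i : Fin s => e i.castSucc, (c ()).1, ⟨?_, ?_⟩, ?_⟩
    · intro x hx y hy hxy
      simp only [coe_image, coe_univ, Set.image_univ, Set.mem_range] at hx hy
      obtain ⟨i, rfl⟩ := hx
      obtain ⟨j, rfl⟩ := hy
      exact hcl i j (fun h => hxy (by rw [h]))
    · have hinj' : Function.Injective fun i : Fin s => e i.castSucc :=
        hinj.comp (Fin.castSucc_injective s)
      rw [card_image_of_injective _ hinj', card_univ, Fintype.card_fin]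
    · intro x hx
      rw [mem_image] at hx
      obtain ⟨i, -, rfl⟩ := hx
      exact hall i

/-- The typed graphs on the product: the first type changes the first coordinate, the second type
changes the second coordinate. -/
def boxL {X Y : Type} (A : SimpleGraph X) : SimpleGraph (X × Y) where
  Adj p q := A.Adj p.1 q.1 ∧ p.2 = q.2
  symm := ⟨fun _ _ h => ⟨h.1.symm, h.2.symm⟩⟩
  loopless := ⟨fun _ h => h.1.ne rfl⟩

def boxR {X Y : Type} (B : SimpleGraph Y) : SimpleGraph (X × Y) where
  Adj p q := p.1 = q.1 ∧ B.Adj p.2 q.2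
  symm := ⟨fun _ _ h => ⟨h.1.symm, h.2.symm⟩⟩
  loopless := ⟨fun _ h => h.2.ne rfl⟩

/-- **The vertex gadget.** -/
theorem gadget (t : ℕ) (ht : 3 ≤ t) (κ : Type) [Finite κ] [Nonempty κ] :
    ∃ (Z : Type) (_ : Finite Z) (N : Bool → SimpleGraph Z),
      (∀ u v x y, (N u).Adj x y → (N v).Adj x y → u = v) ∧
      (N true).CliqueFree t ∧ (N false).CliqueFree (t - 1) ∧
      ∀ w : Z → κ, ∃ (c : κ) (S₁ S₂ : Finset Z), (N true).IsNClique (t - 1) S₁ ∧
        (N false).IsNClique (t - 2) S₂ ∧ (∀ x ∈ S₁, w x = c) ∧ ∀ x ∈ S₂, w x = c := by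
  classical
  obtain ⟨Y, hY, B, hB, hBw⟩ := vertexFolkman (t - 2) (by omega) κ
  obtain ⟨X, hX, A, hA, hAw⟩ := vertexFolkman (t - 1) (by omega) (Y → κ)
  have e1 : t - 1 + 1 = t := by omega
  have e2 : t - 2 + 1 = t - 1 := by omega
  rw [e1] at hA
  rw [e2] at hB
  refine ⟨X × Y, inferInstance, fun b => if b then boxL A else boxR B, ?_, ?_, ?_, ?_⟩
  · intro u v x y hu hv
    cases u <;> cases v <;> simp only [if_true, Bool.false_eq_true, if_false] at hu hv ⊢
    · exact absurd hu.1 hv.1.ne
    · exact absurd hv.1 hu.1.ne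
  · simp only [if_true]
    exact cliqueFree_of_hom (⟨fun p => p.1, fun h => h.1⟩ : boxL A →g A) hA
  · simp only [Bool.false_eq_true, if_false]
    exact cliqueFree_of_hom (⟨fun p => p.2, fun h => h.2⟩ : boxR B →g B) hB
  · intro w
    obtain ⟨SA, g, hSA, hg⟩ := hAw (fun x y => w (x, y))
    obtain ⟨SB, c, hSB, hc⟩ := hBw g
    have hneA : SA.Nonempty := by
      rw [← card_pos, hSA.card_eq]; omega
    have hneB : SB.Nonempty := by
      rw [← card_pos, hSB.card_eq]; omega
    obtain ⟨a, ha⟩ := hneA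
    obtain ⟨b, hb⟩ := hneB
    refine ⟨c, SA.image fun x => (x, b), SB.image fun y => (a, y), ⟨?_, ?_⟩, ⟨?_, ?_⟩, ?_, ?_⟩
    · intro p hp q hq hpq
      simp only [coe_image, Set.mem_image, mem_coe] at hp hq
      obtain ⟨x, hx, rfl⟩ := hp
      obtain ⟨y, hy, rfl⟩ := hq
      simp only [if_true]
      exact ⟨hSA.isClique hx hy (fun h => hpq (by rw [h])), rfl⟩
    · rw [card_image_of_injective _ (fun x y h => (Prod.ext_iff.1 h).1), hSA.card_eq]
    · intro p hp q hq hpq
      simp only [coe_image, Set.mem_image, mem_coe] at hp hq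
      obtain ⟨x, hx, rfl⟩ := hp
      obtain ⟨y, hy, rfl⟩ := hq
      simp only [Bool.false_eq_true, if_false]
      exact ⟨rfl, hSB.isClique hx hy (fun h => hpq (by rw [h]))⟩
    · rw [card_image_of_injective _ (fun x y h => (Prod.ext_iff.1 h).2), hSB.card_eq]
    · intro p hp
      rw [mem_image] at hp
      obtain ⟨x, hx, rfl⟩ := hp
      have := congrFun (hg x hx) b
      rw [← hc b hb, ← this]
    · intro p hp
      rw [mem_image] at hp
      obtain ⟨y, hy, rfl⟩ := hp
      have := congrFun (hg a ha) y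
      rw [← hc y hy, ← this]

end Pool.Agent.R549.RE
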