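import Pool.Agent.R549.RE.Gadget

/-!
# Ramsey equivalence with a pair of complete graphs
-/

set_option autoImplicit false

namespace Pool.Agent.R549.RE

open Finset

/-- every colouring of `F` has a red copy of `G` or a blue copy of `H` -/
def Arr {V W₁ W₂ : Type} (F : SimpleGraph V) (G : SimpleGraph W₁) (H : SimpleGraph W₂) : Prop :=
  ∀ R : SimpleGraph V, R ≤ F →
    (∃ f : G →g R, Function.Injective f) ∨ (∃ f : H →g F \ R, Function.Injective f)

lemma arr_swap {V W₁ W₂ : Type} {F : SimpleGraph V} {G : SimpleGraph W₁} {H : SimpleGraph W₂}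
    (h : Arr F G H) : Arr F H G := by
  intro R hR
  rcases h (F \ R) sdiff_le with h1 | h1
  · exact Or.inr h1
  · left
    rwa [sdiff_sdiff_eq_self hR] at h1

lemma arr_iso {V V' W₁ W₂ : Type} {F : SimpleGraph V} {F' : SimpleGraph V'} (φ : F ≃g F')
    {G : SimpleGraph W₁} {H : SimpleGraph W₂} (h : Arr F G H) : Arr F' G H := by
  intro R' hR'
  have hle : R'.comap φ ≤ F := by
    intro x y hxy
    have : F'.Adj (φ x) (φ y) := hR' hxy
    exact φ.map_adj_iff.1 this
  rcases h (R'.comap φ) hle with ⟨f, hf⟩ | ⟨f, hf⟩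
  · left
    refine ⟨⟨fun x => φ (f x), fun {a b} hab => f.map_adj hab⟩, φ.injective.comp hf⟩
  · right
    refine ⟨⟨fun x => φ (f x), fun {a b} hab => ?_⟩, φ.injective.comp hf⟩
    have h1 := f.map_adj hab
    rw [SimpleGraph.sdiff_adj] at h1 ⊢
    exact ⟨φ.map_adj_iff.2 h1.1, h1.2⟩

lemma exists_inj_iff {V : Type} {G : SimpleGraph V} {t : ℕ} :
    (∃ f : (⊤ : SimpleGraph (Fin t)) →g G, Function.Injective f) ↔ ¬ G.CliqueFree t := by
  rw [not_cliqueFree_iff_hom]
  exact ⟨fun ⟨f, _⟩ => ⟨f⟩, fun ⟨f⟩ => ⟨f, hom_inj f⟩⟩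

lemma arrK_iff {V : Type} {F : SimpleGraph V} {t : ℕ} :
    Arr F (⊤ : SimpleGraph (Fin t)) (⊤ : SimpleGraph (Fin t)) ↔
      ∀ R : SimpleGraph V, R ≤ F → ¬ (R.CliqueFree t ∧ (F \ R).CliqueFree t) := by
  unfold Arr
  simp only [exists_inj_iff]
  constructor
  · intro h R hR ⟨h1, h2⟩
    rcases h R hR with h | h
    · exact h h1
    · exact h h2
  · intro h R hR
    by_contra hc
    push Not at hc
    exact h R hR hc

/-- disjoint union -/
def dsum {V W : Type} (G : SimpleGraph V) (H : SimpleGraph W) : SimpleGraph (V ⊕ W) where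
  Adj p q := match p, q with
    | Sum.inl x, Sum.inl y => G.Adj x y
    | Sum.inr x, Sum.inr y => H.Adj x y
    | _, _ => False
  symm := ⟨by
    rintro (x | x) (y | y) h
    · exact G.symm.symm _ _ h
    · exact h
    · exact h
    · exact H.symm.symm _ _ h⟩
  loopless := ⟨by
    rintro (x | x) h
    · exact G.loopless.irrefl x h
    · exact H.loopless.irrefl x h⟩

lemma dsum_cliqueFree {V W : Type} {G : SimpleGraph V} {H : SimpleGraph W} {t : ℕ} (ht : 1 ≤ t)
    (hG : G.CliqueFree t) (hH : H.CliqueFree t) : (dsum G H).CliqueFree t := by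
  by_contra hc
  obtain ⟨f⟩ := not_cliqueFree_iff_hom.1 hc
  cases h0 : f ⟨0, ht⟩ with
  | inl x0 =>
    have hall : ∀ i, ∃ x, f i = Sum.inl x := by
      intro i
      by_cases hi : i = ⟨0, ht⟩
      · exact ⟨x0, by rw [hi, h0]⟩
      · have h1 : (dsum G H).Adj (f ⟨0, ht⟩) (f i) := f.map_adj (Ne.symm hi)
        rw [h0] at h1
        cases h2 : f i with
        | inl x => exact ⟨x, rfl⟩
        | inr x => rw [h2] at h1; exact absurd h1 (by simp [dsum])
    choose g hg using hall
    refine not_cliqueFree_iff_hom.2 ⟨⟨g, fun {a b} hab => ?_⟩⟩ hG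
    have h1 : (dsum G H).Adj (f a) (f b) := f.map_adj hab
    rw [hg, hg] at h1
    exact h1
  | inr x0 =>
    have hall : ∀ i, ∃ x, f i = Sum.inr x := by
      intro i
      by_cases hi : i = ⟨0, ht⟩
      · exact ⟨x0, by rw [hi, h0]⟩
      · have h1 : (dsum G H).Adj (f ⟨0, ht⟩) (f i) := f.map_adj (Ne.symm hi)
        rw [h0] at h1
        cases h2 : f i with
        | inl x => rw [h2] at h1; exact absurd h1 (by simp [dsum])
        | inr x => exact ⟨x, rfl⟩
    choose g hg using hall
    refine not_cliqueFree_iff_hom.2 ⟨⟨g, fun {a b} hab => ?_⟩⟩ hH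
    have h1 : (dsum G H).Adj (f a) (f b) := f.map_adj hab
    rw [hg, hg] at h1
    exact h1

/-- the complete graph without the edge `01` -/
def kMinus (t : ℕ) : SimpleGraph (Fin t) where
  Adj x y := x ≠ y ∧ (x : ℕ) + y ≠ 1
  symm := ⟨fun x y h => ⟨h.1.symm, by have := h.2; omega⟩⟩
  loopless := ⟨fun x h => h.1 rfl⟩

/-- the graph with the edge `01` only -/
def kOne (t : ℕ) : SimpleGraph (Fin t) where
  Adj x y := (x : ℕ) + y = 1
  symm := ⟨fun x y h => by omega⟩
  loopless := ⟨fun x h => by omega⟩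

lemma kMinus_cliqueFree {t r : ℕ} (ht : 2 ≤ t) (hr : r ≤ t) : (kMinus r).CliqueFree t := by
  by_contra hc
  obtain ⟨f⟩ := not_cliqueFree_iff_hom.1 hc
  have hinj := hom_inj f
  have h1 := Fintype.card_le_of_injective f hinj
  rw [Fintype.card_fin, Fintype.card_fin] at h1
  obtain rfl : r = t := le_antisymm hr h1
  have hsurj := Finite.surjective_of_injective hinj
  obtain ⟨i, hi⟩ := hsurj ⟨0, by omega⟩
  obtain ⟨j, hj⟩ := hsurj ⟨1, by omega⟩
  have hij : i ≠ j := by
    intro h
    rw [h, hj] at hi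
    simp at hi
  have h2 : (kMinus r).Adj (f i) (f j) := f.map_adj hij
  rw [hi, hj] at h2
  exact h2.2 rfl

lemma kOne_cliqueFree {t r : ℕ} (ht : 3 ≤ t) : (kOne r).CliqueFree t := by
  by_contra hc
  obtain ⟨f⟩ := not_cliqueFree_iff_hom.1 hc
  have h1 : (kOne r).Adj (f ⟨0, by omega⟩) (f ⟨1, by omega⟩) := f.map_adj (by simp)
  have h2 : (kOne r).Adj (f ⟨0, by omega⟩) (f ⟨2, by omega⟩) := f.map_adj (by simp)
  have h3 : (kOne r).Adj (f ⟨1, by omega⟩) (f ⟨2, by omega⟩) := f.map_adj (by simp)
  simp only [kOne] at h1 h2 h3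
  omega

/-- a set closed under adjacency in a connected graph -/
lemma conn_closed {V : Type} {G : SimpleGraph V} (hG : G.Connected) (C : V → Prop)
    (h : ∀ x y, G.Adj x y → C x → C y) (x0 : V) (h0 : C x0) (y : V) : C y := by
  obtain ⟨p⟩ := hG.preconnected x0 y
  induction p with
  | nil => exact h0
  | cons hadj p ih => exact ih (h _ _ hadj h0)

lemma isNClique_image {V W : Type} [DecidableEq W] {G : SimpleGraph V} {H : SimpleGraph W} {n : ℕ}
    {S : Finset V} (hS : G.IsNClique n S) (φ : V → W)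
    (h : ∀ x ∈ S, ∀ y ∈ S, G.Adj x y → H.Adj (φ x) (φ y)) : H.IsNClique n (S.image φ) := by
  have key : ∀ x ∈ S, ∀ y ∈ S, x ≠ y → H.Adj (φ x) (φ y) := fun x hx y hy hxy =>
    h x hx y hy (hS.isClique hx hy hxy)
  refine ⟨?_, ?_⟩
  · intro p hp q hq hpq
    simp only [coe_image, Set.mem_image, mem_coe] at hp hq
    obtain ⟨x, hx, rfl⟩ := hp
    obtain ⟨y, hy, rfl⟩ := hq
    exact key x hx y hy (fun h => hpq (by rw [h]))
  · rw [card_image_of_injOn, hS.card_eq]
    intro x hx y hy hxy
    by_contra hne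
    exact (key x hx y hy hne).ne hxy

/-- Attach complete graphs to a graph. -/
def attach {X J : Type} (t : ℕ) (Γ : SimpleGraph X) (P : X → J → Prop) :
    SimpleGraph (X ⊕ (J × Fin t)) where
  Adj p q := match p, q with
    | Sum.inl x, Sum.inl y => Γ.Adj x y
    | Sum.inl x, Sum.inr a => P x a.1
    | Sum.inr a, Sum.inl x => P x a.1
    | Sum.inr a, Sum.inr b => a.1 = b.1 ∧ a.2 ≠ b.2
  symm := ⟨by
    rintro (x | x) (y | y) h
    · exact Γ.symm.symm _ _ h
    · exact h
    · exact h
    · exact ⟨h.1.symm, h.2.symm⟩⟩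
  loopless := ⟨by
    rintro (x | x) h
    · exact Γ.loopless.irrefl x h
    · exact h.2 rfl⟩

/-- no copy of `G` in the red graph -/
lemma attach_false {X J : Type} {n t : ℕ} {Γ : SimpleGraph X} (hΓ : Γ.CliqueFree t)
    {G : SimpleGraph (Fin n)} (hG : G.Connected) (hn : t < n) (hGt : ¬ G.CliqueFree t)
    (f : G →g attach (J := J) t Γ (fun _ _ => False)) (hf : Function.Injective f) : False := by
  have h0 : 0 < n := by omega
  cases hf0 : f ⟨0, h0⟩ with
  | inl x0 =>
    have hall : ∀ v, ∃ x, f v = Sum.inl x := by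
      refine conn_closed hG (fun v => ∃ x, f v = Sum.inl x) ?_ ⟨0, h0⟩ ⟨x0, hf0⟩
      rintro v w hvw ⟨x, hx⟩
      have h1 := f.map_adj hvw
      rw [hx] at h1
      cases h2 : f w with
      | inl y => exact ⟨y, rfl⟩
      | inr y => rw [h2] at h1; exact absurd h1 (by simp [attach])
    choose g hg using hall
    refine hGt (cliqueFree_of_hom (⟨g, fun {a b} hab => ?_⟩ : G →g Γ) hΓ)
    have h1 := f.map_adj hab
    rw [hg, hg] at h1
    exact h1
  | inr y0 =>
    have hall : ∀ v, ∃ i, f v = Sum.inr (y0.1, i) := by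
      refine conn_closed hG (fun v => ∃ i, f v = Sum.inr (y0.1, i)) ?_ ⟨0, h0⟩ ⟨y0.2, hf0⟩
      rintro v w hvw ⟨i, hi⟩
      have h1 := f.map_adj hvw
      rw [hi] at h1
      cases h2 : f w with
      | inl y => rw [h2] at h1; exact absurd h1 (by simp [attach])
      | inr y =>
        rw [h2] at h1
        have h3 : y0.1 = y.1 := h1.1
        exact ⟨y.2, by rw [h3]⟩
    choose g hg using hall
    have hginj : Function.Injective g := by
      intro v w hvw
      apply hf
      rw [hg, hg, hvw]
    have := Fintype.card_le_of_injective g hginj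
    rw [Fintype.card_fin, Fintype.card_fin] at this
    omega

/-- **Case A**: both graphs contain `K_t` and the first one is not `K_t`. -/
theorem caseA {t n m : ℕ} (ht : 3 ≤ t) {G : SimpleGraph (Fin n)} {H : SimpleGraph (Fin m)}
    (hG : G.Connected) (hn : t < n) (hGt : ¬ G.CliqueFree t) (hHt : ¬ H.CliqueFree t) :
    ∃ (V : Type) (_ : Finite V) (F : SimpleGraph V),
      Arr F (⊤ : SimpleGraph (Fin t)) (⊤ : SimpleGraph (Fin t)) ∧ ¬ Arr F G H := by
  classical
  obtain ⟨Z, hZ, N, hNd, hN1, hN2, hN⟩ := gadget t ht (Fin t → Bool)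
  let A : Bool → SimpleGraph (Z ⊕ Fin t) := fun b => dsum (N b) (if b then kMinus t else kOne t)
  have hAd : ∀ u v x y, (A u).Adj x y → (A v).Adj x y → u = v := by
    rintro u v (x | x) (y | y) hu hv
    · exact hNd u v x y hu hv
    · exact absurd hu (by simp [A, dsum])
    · exact absurd hu (by simp [A, dsum])
    · have hu' : (if u then kMinus t else kOne t).Adj x y := hu
      have hv' : (if v then kMinus t else kOne t).Adj x y := hv
      cases u <;> cases v <;> simp only [if_true, Bool.false_eq_true, if_false] at hu' hv' ⊢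
      · exact absurd hu' hv'.2
      · exact absurd hv' hu'.2
  have e1 : t - 1 + 1 = t := by omega
  have hAfree : ∀ u, (A u).CliqueFree (t - 1 + 1) := by
    intro u
    rw [e1]
    cases u with
    | true =>
      exact dsum_cliqueFree (by omega) hN1 (by simpa using kMinus_cliqueFree (by omega) le_rfl)
    | false =>
      exact dsum_cliqueFree (by omega) (hN2.mono (by omega)) (by simpa using kOne_cliqueFree ht)
  obtain ⟨X, hX, Γ, hΓd, hΓ, hχ⟩ := typedFolkmanI (fun _ : Bool => t - 1) (fun _ => by omega) Bool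
    (Z ⊕ Fin t) A hAd hAfree
  simp only [e1] at hΓ
  let E : Type := {e : Z → X // ∀ x y, (Γ false).Adj (e x) (e y) → (N false).Adj x y}
  let P : X → E → Prop := fun x e => ∃ z, e.1 z = x
  let F : SimpleGraph (X ⊕ (E × Fin t)) := attach t (Γ true ⊔ Γ false) P
  have hEfin : Finite E := Subtype.finite
  refine ⟨X ⊕ (E × Fin t), inferInstance, F, ?_, ?_⟩
  · -- `F` is Ramsey for `K_t`
    rw [arrK_iff]
    rintro R hR ⟨hR1, hR2⟩
    let C : Bool → SimpleGraph (X ⊕ (E × Fin t)) := fun b => if b then R else F \ R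
    have hC : ∀ b, (C b).CliqueFree t := by
      intro b
      cases b with
      | true => simpa [C] using hR1
      | false => simpa [C] using hR2
    let col : (X ⊕ (E × Fin t)) → (X ⊕ (E × Fin t)) → Bool := fun p q => decide (R.Adj p q)
    have hcol : ∀ p q, F.Adj p q → (C (col p q)).Adj p q := by
      intro p q hpq
      by_cases h : R.Adj p q
      · simp only [C, col, h, decide_true, if_true]
      · simp only [C, col, h, decide_false, Bool.false_eq_true, if_false]
        rw [SimpleGraph.sdiff_adj]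
        exact ⟨hpq, h⟩
    obtain ⟨e, c, heinj, heind, he⟩ := hχ (fun x y => col (Sum.inl x) (Sum.inl y))
      (fun x y => by simp only [col]; congr 1; exact propext ⟨fun h => h.symm, fun h => h.symm⟩)
    have he' : ∀ x y u, (A u).Adj x y → (C (c u)).Adj (Sum.inl (e x)) (Sum.inl (e y)) := by
      intro x y u hxy
      obtain ⟨h1, h2⟩ := he x y u hxy
      rw [← h2]
      apply hcol
      show (Γ true ⊔ Γ false).Adj (e x) (e y)
      rw [SimpleGraph.sup_adj]
      cases u
      · exact Or.inr h1
      · exact Or.inl h1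
    -- the two types have different colours
    have hne : c true ≠ c false := by
      intro hc
      refine not_cliqueFree_iff_hom.2 ⟨⟨fun i => Sum.inl (e (Sum.inr i)), fun {i j} hij => ?_⟩⟩
        (hC (c true))
      have hij' : i ≠ j := hij
      by_cases h : (i : ℕ) + j = 1
      · rw [hc]
        exact he' (Sum.inr i) (Sum.inr j) false h
      · exact he' (Sum.inr i) (Sum.inr j) true ⟨hij', h⟩
    let ε : E := ⟨fun z => e (Sum.inl z), fun x y h => heind (Sum.inl x) (Sum.inl y) false h⟩
    obtain ⟨c0, S₁, S₂, hS₁, hS₂, hw₁, hw₂⟩ := hN (fun z i =>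
      col (Sum.inl (e (Sum.inl z))) (Sum.inr (ε, i)))
    have hmix : ∀ z i, (C (col (Sum.inl (e (Sum.inl z))) (Sum.inr (ε, i)))).Adj
        (Sum.inl (e (Sum.inl z))) (Sum.inr (ε, i)) := by
      intro z i
      apply hcol
      exact ⟨z, rfl⟩
    have hT₁ : (C (c true)).IsNClique (t - 1)
        (S₁.image fun z => (Sum.inl (e (Sum.inl z)) : X ⊕ (E × Fin t))) :=
      isNClique_image hS₁ _ (fun x _ y _ hxy => he' (Sum.inl x) (Sum.inl y) true hxy)
    have hT₂ : (C (c false)).IsNClique (t - 2)
        (S₂.image fun z => (Sum.inl (e (Sum.inl z)) : X ⊕ (E × Fin t))) :=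
      isNClique_image hS₂ _ (fun x _ y _ hxy => he' (Sum.inl x) (Sum.inl y) false hxy)
    have hbool : ∀ a b c : Bool, b ≠ c → ¬ a = c → a = b := by decide
    have hc0 : ∀ i, c0 i = c false := by
      intro i
      by_contra hci
      have hci' : c0 i = c true := hbool _ _ _ hne hci
      have h1 := hT₁.insert (a := Sum.inr (ε, i)) (by
        intro b hb
        rw [mem_image] at hb
        obtain ⟨z, hz, rfl⟩ := hb
        have h2 := hmix z i
        have h3 := congrFun (hw₁ z hz) i
        rw [h3, hci'] at h2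
        exact h2.symm)
      rw [e1] at h1
      exact hC _ _ h1
    have hk : ∀ i j, i ≠ j → (C (c true)).Adj (Sum.inr (ε, i)) (Sum.inr (ε, j)) := by
      intro i j hij
      have h0 : F.Adj (Sum.inr (ε, i)) (Sum.inr (ε, j)) := ⟨rfl, hij⟩
      have h1 := hcol _ _ h0
      by_cases h2 : col (Sum.inr (ε, i)) (Sum.inr (ε, j)) = c false
      · exfalso
        rw [h2] at h1
        have h3 := hT₂.insert (a := Sum.inr (ε, i)) (by
          intro b hb
          rw [mem_image] at hb
          obtain ⟨z, hz, rfl⟩ := hb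
          have h2 := hmix z i
          have h3 := congrFun (hw₂ z hz) i
          rw [h3, hc0] at h2
          exact h2.symm)
        have h4 := h3.insert (a := Sum.inr (ε, j)) (by
          intro b hb
          rw [mem_insert] at hb
          rcases hb with rfl | hb
          · exact h1.symm
          rw [mem_image] at hb
          obtain ⟨z, hz, rfl⟩ := hb
          have h2 := hmix z j
          have h3 := congrFun (hw₂ z hz) j
          rw [h3, hc0] at h2
          exact h2.symm)
        have e2 : t - 2 + 1 + 1 = t := by omega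
        rw [e2] at h4
        exact hC _ _ h4
      · have h3 : col (Sum.inr (ε, i)) (Sum.inr (ε, j)) = c true := hbool _ _ _ hne h2
        rw [h3] at h1
        exact h1
    exact not_cliqueFree_iff_hom.2 ⟨⟨fun i => Sum.inr (ε, i), fun {i j} hij => hk i j hij⟩⟩
      (hC (c true))
  · -- a colouring of `F`
    intro hF
    let R₀ : SimpleGraph (X ⊕ (E × Fin t)) := attach t (Γ true) (fun _ _ => False)
    have hR₀ : R₀ ≤ F := by
      rintro (x | x) (y | y) h
      · exact Or.inl h
      · exact absurd h (by simp [R₀, attach])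
      · exact absurd h (by simp [R₀, attach])
      · exact h
    rcases hF R₀ hR₀ with ⟨f, hf⟩ | ⟨f, hf⟩
    · exact attach_false (hΓ true) hG hn hGt f hf
    · apply hHt
      apply cliqueFree_of_hom f
      by_contra hc
      obtain ⟨g⟩ := not_cliqueFree_iff_hom.1 hc
      have hadj : ∀ x y, (F \ R₀).Adj (Sum.inl x) (Sum.inl y) → (Γ false).Adj x y := by
        intro x y h
        rw [SimpleGraph.sdiff_adj] at h
        have h1 : (Γ true ⊔ Γ false).Adj x y := h.1
        rw [SimpleGraph.sup_adj] at h1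
        exact h1.resolve_left h.2
      by_cases hall : ∀ i, ∃ x, g i = Sum.inl x
      · choose g' hg' using hall
        refine not_cliqueFree_iff_hom.2 ⟨⟨g', fun {a b} hab => ?_⟩⟩ (hΓ false)
        have h1 := g.map_adj hab
        rw [hg', hg'] at h1
        exact hadj _ _ h1
      · push Not at hall
        obtain ⟨i0, hi0⟩ := hall
        obtain ⟨s, rfl⟩ : ∃ s, t = s + 1 := ⟨t - 1, by omega⟩
        obtain ⟨⟨ε, j⟩, hj⟩ : ∃ y, g i0 = Sum.inr y := by
          cases h : g i0 with
          | inl x => exact absurd h (hi0 x)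
          | inr y => exact ⟨y, rfl⟩
        have hz : ∀ i : Fin s, ∃ z, g (i0.succAbove i) = Sum.inl (ε.1 z) := by
          intro i
          have h1 := g.map_adj (show (⊤ : SimpleGraph (Fin (s + 1))).Adj i0 (i0.succAbove i) from
            (Fin.succAbove_ne i0 i).symm)
          rw [hj, SimpleGraph.sdiff_adj] at h1
          cases h : g (i0.succAbove i) with
          | inl x =>
            rw [h] at h1
            obtain ⟨z, hz⟩ : P x ε := h1.1
            exact ⟨z, by rw [hz]⟩
          | inr y =>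
            rw [h] at h1
            exact absurd h1.1 h1.2
        choose z hz using hz
        have hN2' : (N false).CliqueFree s := by simpa using hN2
        refine not_cliqueFree_iff_hom.2 ⟨⟨z, fun {a b} hab => ?_⟩⟩ hN2'
        have h1 := g.map_adj (show (⊤ : SimpleGraph (Fin (s + 1))).Adj (i0.succAbove a)
          (i0.succAbove b) from fun h => hab (Fin.succAbove_right_injective h))
        rw [hz, hz] at h1
        exact ε.2 _ _ (hadj _ _ h1)

/-- **Case B1**: the first graph has no `K_t` and the second one is not Ramsey for `K_t`. -/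
theorem caseB1 {t n m : ℕ} (ht : 3 ≤ t) {G : SimpleGraph (Fin n)} {H : SimpleGraph (Fin m)}
    (hGt : G.CliqueFree t)
    (hH : ¬ Arr H (⊤ : SimpleGraph (Fin t)) (⊤ : SimpleGraph (Fin t))) :
    ∃ (V : Type) (_ : Finite V) (F : SimpleGraph V),
      Arr F G H ∧ ¬ Arr F (⊤ : SimpleGraph (Fin t)) (⊤ : SimpleGraph (Fin t)) := by
  classical
  rw [arrK_iff] at hH
  push Not at hH
  obtain ⟨R, hR, hR1, hR2⟩ := hH
  let A : Bool → SimpleGraph (Fin n ⊕ (Fin n ⊕ Fin m)) := fun b =>
    if b then dsum G (dsum ⊥ R) else dsum ⊥ (dsum G (H \ R))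
  have hAd : ∀ u v x y, (A u).Adj x y → (A v).Adj x y → u = v := by
    have key : ∀ x y, (dsum G (dsum ⊥ R)).Adj x y → (dsum ⊥ (dsum G (H \ R))).Adj x y →
        False := by
      rintro (x | x | x) (y | y | y) hu hv
      · exact hv
      · exact hu
      · exact hu
      · exact hu
      · exact hu
      · exact hu
      · exact hu
      · exact hu
      · have h1 : R.Adj x y := hu
        have h2 : (H \ R).Adj x y := hv
        rw [SimpleGraph.sdiff_adj] at h2
        exact h2.2 h1
    intro u v x y hu hv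
    cases u <;> cases v <;> simp only [A, if_true, Bool.false_eq_true, if_false] at hu hv ⊢
    · exact (key x y hv hu).elim
    · exact (key x y hu hv).elim
  have e1 : t - 1 + 1 = t := by omega
  have hbot : ∀ V : Type, (⊥ : SimpleGraph V).CliqueFree t :=
    fun V => SimpleGraph.cliqueFree_bot (by omega)
  have hAfree : ∀ u, (A u).CliqueFree (t - 1 + 1) := by
    intro u
    rw [e1]
    cases u with
    | true =>
      simp only [A, if_true]
      exact dsum_cliqueFree (by omega) hGt (dsum_cliqueFree (by omega) (hbot _) hR1)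
    | false =>
      simp only [A, Bool.false_eq_true, if_false]
      exact dsum_cliqueFree (by omega) (hbot _) (dsum_cliqueFree (by omega) hGt hR2)
  obtain ⟨X, hX, Γ, hΓd, hΓ, hχ⟩ := typedFolkmanI (fun _ : Bool => t - 1) (fun _ => by omega) Bool
    _ A hAd hAfree
  simp only [e1] at hΓ
  refine ⟨X, hX, Γ true ⊔ Γ false, ?_, ?_⟩
  · intro Q hQ
    obtain ⟨e, c, heinj, -, he⟩ := hχ (fun x y => decide (Q.Adj x y))
      (fun x y => by congr 1; exact propext ⟨fun h => h.symm, fun h => h.symm⟩)
    cases h1 : c true with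
    | true =>
      left
      refine ⟨⟨fun x => e (Sum.inl x), fun {a b} hab => ?_⟩, heinj.comp Sum.inl_injective⟩
      have h2 := (he (Sum.inl a) (Sum.inl b) true (by simpa [A, dsum] using hab)).2
      rw [h1] at h2
      exact of_decide_eq_true h2
    | false =>
      cases h2 : c false with
      | true =>
        left
        refine ⟨⟨fun x => e (Sum.inr (Sum.inl x)), fun {a b} hab => ?_⟩,
          heinj.comp (Sum.inr_injective.comp Sum.inl_injective)⟩
        have h3 := (he (Sum.inr (Sum.inl a)) (Sum.inr (Sum.inl b)) false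
          (by simpa [A, dsum] using hab)).2
        rw [h2] at h3
        exact of_decide_eq_true h3
      | false =>
        right
        refine ⟨⟨fun x => e (Sum.inr (Sum.inr x)), fun {a b} hab => ?_⟩,
          heinj.comp (Sum.inr_injective.comp Sum.inr_injective)⟩
        rw [SimpleGraph.sdiff_adj, SimpleGraph.sup_adj]
        by_cases hRab : R.Adj a b
        · obtain ⟨h3, h4⟩ := he (Sum.inr (Sum.inr a)) (Sum.inr (Sum.inr b)) true
            (by simpa [A, dsum] using hRab)
          rw [h1] at h4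
          exact ⟨Or.inl h3, of_decide_eq_false h4⟩
        · obtain ⟨h3, h4⟩ := he (Sum.inr (Sum.inr a)) (Sum.inr (Sum.inr b)) false
            (by simp only [A, Bool.false_eq_true, if_false]
                exact (SimpleGraph.sdiff_adj _ _ _ _).2 ⟨hab, hRab⟩)
          rw [h2] at h4
          exact ⟨Or.inr h3, of_decide_eq_false h4⟩
  · rw [arrK_iff]
    push Not
    refine ⟨Γ true, le_sup_left, hΓ true, ?_⟩
    refine cliqueFree_of_hom (⟨id, fun {a b} hab => ?_⟩ : (Γ true ⊔ Γ false) \ Γ true →g Γ false)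
      (hΓ false)
    rw [SimpleGraph.sdiff_adj, SimpleGraph.sup_adj] at hab
    exact hab.1.resolve_left hab.2

/-- monotonicity and homomorphisms -/
lemma arrK_hom {V W : Type} {F : SimpleGraph V} {F' : SimpleGraph W} {t : ℕ} (φ : F →g F')
    (h : Arr F (⊤ : SimpleGraph (Fin t)) (⊤ : SimpleGraph (Fin t))) :
    Arr F' (⊤ : SimpleGraph (Fin t)) (⊤ : SimpleGraph (Fin t)) := by
  rw [arrK_iff] at h ⊢
  rintro R hR ⟨h1, h2⟩
  refine h (F ⊓ R.comap φ) inf_le_left ⟨?_, ?_⟩
  · refine cliqueFree_of_hom (⟨φ, fun {a b} hab => ?_⟩ : F ⊓ R.comap φ →g R) h1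
    exact hab.2
  · refine cliqueFree_of_hom (⟨φ, fun {a b} hab => ?_⟩ : F \ (F ⊓ R.comap φ) →g F' \ R) h2
    rw [SimpleGraph.sdiff_adj] at hab ⊢
    exact ⟨φ.map_adj hab.1, fun h => hab.2 ⟨hab.1, h⟩⟩

/-- Complete graphs on at most `t` vertices are not Ramsey for `K_t`. -/
lemma not_arr_small {t r : ℕ} (ht : 3 ≤ t) (hr : r ≤ t) :
    ¬ Arr (⊤ : SimpleGraph (Fin r)) (⊤ : SimpleGraph (Fin t)) (⊤ : SimpleGraph (Fin t)) := by
  rw [arrK_iff]
  push Not
  refine ⟨kOne r, ?_, kOne_cliqueFree ht, ?_⟩
  · intro x y h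
    exact fun hxy => by
      have h1 : (x : ℕ) + y = 1 := h
      rw [hxy] at h1
      omega
  · refine cliqueFree_of_hom (⟨id, fun {a b} hab => ?_⟩ : (⊤ : SimpleGraph (Fin r)) \ kOne r →g
      kMinus r) (kMinus_cliqueFree (by omega) hr)
    rw [SimpleGraph.sdiff_adj] at hab
    exact ⟨hab.1, fun h => hab.2 h⟩

/-- Folkman's theorem for two colours. -/
lemma folkman2 {t : ℕ} (ht : 3 ≤ t) : ∃ (X : Type) (_ : Finite X) (F : SimpleGraph X),
    F.CliqueFree (t + 1) ∧ Arr F (⊤ : SimpleGraph (Fin t)) (⊤ : SimpleGraph (Fin t)) := by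
  classical
  obtain ⟨X, hX, Γ, -, hΓ, hχ⟩ := typedFolkmanI (T := Unit) (fun _ => t) (fun _ => by omega) Bool
    (Fin t) (fun _ => ⊤) (fun _ _ _ _ _ _ => rfl) (fun _ => by
      by_contra hc
      obtain ⟨f⟩ := not_cliqueFree_iff_hom.1 hc
      have := Fintype.card_le_of_injective f (hom_inj f)
      rw [Fintype.card_fin, Fintype.card_fin] at this
      omega)
  refine ⟨X, hX, Γ (), hΓ (), ?_⟩
  intro R hR
  obtain ⟨e, c, heinj, -, he⟩ := hχ (fun x y => decide (R.Adj x y))
    (fun x y => by congr 1; exact propext ⟨fun h => h.symm, fun h => h.symm⟩)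
  cases h : c () with
  | true =>
    left
    refine ⟨⟨e, fun {a b} hab => ?_⟩, heinj⟩
    have h2 := (he a b () hab).2
    rw [h] at h2
    exact of_decide_eq_true h2
  | false =>
    right
    refine ⟨⟨e, fun {a b} hab => ?_⟩, heinj⟩
    obtain ⟨h1, h2⟩ := he a b () hab
    rw [h] at h2
    rw [SimpleGraph.sdiff_adj]
    exact ⟨h1, of_decide_eq_false h2⟩

/-- **Case B2**: the second graph is Ramsey for `K_t`. -/
theorem caseB2 {t n m : ℕ} (ht : 3 ≤ t) {G : SimpleGraph (Fin n)} {H : SimpleGraph (Fin m)}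
    (hGe : ∃ x y, G.Adj x y)
    (hH : Arr H (⊤ : SimpleGraph (Fin t)) (⊤ : SimpleGraph (Fin t)))
    (hEq : ∀ (V : Type) [Finite V] (F : SimpleGraph V),
      Arr F (⊤ : SimpleGraph (Fin t)) (⊤ : SimpleGraph (Fin t)) → Arr F G H) : False := by
  classical
  -- `H` is contained in all Ramsey graphs
  have hall : ∀ (V : Type) [Finite V] (F : SimpleGraph V),
      Arr F (⊤ : SimpleGraph (Fin t)) (⊤ : SimpleGraph (Fin t)) →
      ∃ f : H →g F, Function.Injective f := by
    intro V _ F hF
    rcases hEq V F hF ⊥ bot_le with ⟨f, -⟩ | ⟨f, hf⟩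
    · obtain ⟨x, y, hxy⟩ := hGe
      exact absurd (f.map_adj hxy) (by simp)
    · refine ⟨⟨f, fun {a b} hab => ?_⟩, hf⟩
      have := f.map_adj hab
      rw [SimpleGraph.sdiff_adj] at this
      exact this.1
  have hex : ∃ r, Arr (⊤ : SimpleGraph (Fin r)) (⊤ : SimpleGraph (Fin t))
      (⊤ : SimpleGraph (Fin t)) :=
    ⟨m, arrK_hom (⟨id, fun {a b} hab => hab.ne⟩ : H →g (⊤ : SimpleGraph (Fin m))) hH⟩
  let r := Nat.find hex
  have hr := Nat.find_spec hex
  have hmin : ∀ s, Arr (⊤ : SimpleGraph (Fin s)) (⊤ : SimpleGraph (Fin t))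
      (⊤ : SimpleGraph (Fin t)) → r ≤ s := fun s hs => Nat.find_min' hex hs
  -- `H` has at most `r` vertices
  obtain ⟨f, hf⟩ := hall _ _ hr
  have hmr : m ≤ r := by
    have := Fintype.card_le_of_injective f hf
    rwa [Fintype.card_fin, Fintype.card_fin] at this
  -- `H` is complete
  have hcomp : ∀ x y : Fin m, x ≠ y → H.Adj x y := by
    intro x y hxy
    by_contra hnadj
    -- identify `x` and `y`
    have hm : 0 < m := x.pos
    obtain ⟨s, rfl⟩ : ∃ s, m = s + 1 := ⟨m - 1, by omega⟩
    have hφ : ∃ φ : Fin (s + 1) → Fin s, ∀ a b, φ a = φ b → a = b ∨ (a = x ∧ b = y) ∨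
        (a = y ∧ b = x) := by
      have hs : 0 < s := by
        by_contra hs
        have : s = 0 := by omega
        subst this
        exact hxy (Fin.ext (by omega))
      -- remove the vertex `y`
      have hx : ∃ x', y.succAbove x' = x := Fin.exists_succAbove_eq hxy
      obtain ⟨x', hx'⟩ := hx
      refine ⟨fun a => if h : a = y then x' else (Fin.exists_succAbove_eq h).choose, ?_⟩
      intro a b hab
      by_cases ha : a = y
      · by_cases hb : b = y
        · left; rw [ha, hb]
        · right; right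
          refine ⟨ha, ?_⟩
          simp only [ha, hb, dif_pos, dif_neg, not_false_eq_true] at hab
          have h1 := (Fin.exists_succAbove_eq hb).choose_spec
          rw [← hab, hx'] at h1
          exact h1.symm
      · by_cases hb : b = y
        · right; left
          refine ⟨?_, hb⟩
          simp only [ha, hb, dif_pos, dif_neg, not_false_eq_true] at hab
          have h1 := (Fin.exists_succAbove_eq ha).choose_spec
          rw [hab, hx'] at h1
          exact h1.symm
        · left
          simp only [ha, hb, dif_neg, not_false_eq_true] at hab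
          have h1 := (Fin.exists_succAbove_eq ha).choose_spec
          have h2 := (Fin.exists_succAbove_eq hb).choose_spec
          rw [← h1, ← h2, hab]
    obtain ⟨φ, hφ⟩ := hφ
    have h1 : Arr (⊤ : SimpleGraph (Fin s)) (⊤ : SimpleGraph (Fin t))
        (⊤ : SimpleGraph (Fin t)) := by
      refine arrK_hom (⟨φ, fun {a b} hab => ?_⟩ : H →g (⊤ : SimpleGraph (Fin s))) hH
      intro h
      rcases hφ a b h with h | ⟨h1, h2⟩ | ⟨h1, h2⟩
      · exact hab.ne h
      · rw [h1, h2] at hab
        exact hnadj hab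
      · rw [h1, h2] at hab
        exact hnadj hab.symm
    have := hmin s h1
    omega
  have hHtop : H = ⊤ := by
    ext x y
    exact ⟨fun h => h.ne, fun h => hcomp x y h⟩
  -- but `H` is contained in a Ramsey graph without `K_{t+1}`
  obtain ⟨X, hX, F, hF, hFR⟩ := folkman2 ht
  obtain ⟨g, hg⟩ := hall X F hFR
  have hm : m ≤ t := by
    by_contra hmt
    refine hF.mono (show t + 1 ≤ m by omega) |> fun h => ?_
    exact not_cliqueFree_iff_hom.2 ⟨by rw [← hHtop]; exact g⟩ h
  rw [hHtop] at hH
  exact not_arr_small ht hm hH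

end Pool.Agent.R549.RE
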