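import Pool.Agent.R69.TypedFolkman2

/-!
# The Nešetřil–Rödl theorem for edge-coloured graphs, with induced copies
-/

set_option autoImplicit false

namespace Pool.Agent.R549.RE

open Combinatorics Pool.Agent.R69.TypedFolkman

/-- The copies of `P` in the new system are induced. -/
lemma copy_induced {T : Type} {N : ℕ} {P : Sys T N} {a b : Fin N} {t₀ : T} {ι : Type}
    (hab : a ≠ b) (l : Line (E P a b t₀) ι) (u : T) (x y : P.X)
    (h : (G' (P := P) (t₀ := t₀) (ι := ι) hab u).Adj (F l x) (F l y)) : (P.Γ u).Adj x y := by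
  obtain ⟨l', x', y', h, hx, hy⟩ := h
  by_cases hp : (F l x).1 = none
  · by_cases hq : (F l y).1 = none
    · exact induced hab h hx.symm hy.symm hp hq
    · obtain ⟨l0, hl0⟩ := Option.ne_none_iff_exists'.1 hq
      obtain ⟨rfl, -, -⟩ := F_some hab hl0
      obtain ⟨rfl, -, -⟩ := F_some hab (show (F l' y').1 = some l by rw [hy]; exact hl0)
      have e1 := F_inj hab l' hx
      have e2 := F_inj hab l' hy
      rw [← e1, ← e2]
      exact h
  · obtain ⟨l0, hl0⟩ := Option.ne_none_iff_exists'.1 hp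
    obtain ⟨rfl, -, -⟩ := F_some hab hl0
    obtain ⟨rfl, -, -⟩ := F_some hab (show (F l' x').1 = some l by rw [hx]; exact hl0)
    have e1 := F_inj hab l' hx
    have e2 := F_inj hab l' hy
    rw [← e1, ← e2]
    exact h

/-- One step of the partite construction. -/
theorem stepI {T : Type} {N : ℕ} (n : T → ℕ) (hn : ∀ u, 2 ≤ n u) (κ : Type) [Finite κ] [Nonempty κ]
    (P : Sys T N) (hP : ∀ u, (P.Γ u).CliqueFree (n u + 1)) (a b : Fin N) (hab : a ≠ b) (t₀ : T) :
    ∃ Q : Sys T N, (∀ u, (Q.Γ u).CliqueFree (n u + 1)) ∧ ∀ χ : Q.X → Q.X → κ,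
      ∃ f : Emb P Q, (∀ u x y, (Q.Γ u).Adj (f.f x) (f.f y) → (P.Γ u).Adj x y) ∧ ∃ c : κ,
      ∀ x y, P.π x = a → P.π y = b → (P.Γ t₀).Adj x y → χ (f.f x) (f.f y) = c := by
  classical
  have := P.fin
  obtain ⟨ι, hι, hHJ⟩ := Line.exists_mono_in_high_dimension (E P a b t₀) κ
  have ht0 : ∃ t : ι, True := by
    obtain ⟨l, -⟩ := hHJ (fun _ => Classical.arbitrary κ)
    obtain ⟨i, -⟩ := l.proper
    exact ⟨i, trivial⟩
  obtain ⟨s0, -⟩ := ht0
  have : Finite (Option (Line (E P a b t₀) ι) × (ι → P.X)) := inferInstance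
  refine ⟨⟨Option (Line (E P a b t₀) ι) × (ι → P.X), inferInstance, G' hab,
    fun p => P.π (p.2 s0), ?_, G'_disj hab⟩, fun u => cliqueFree hab u (hn u) (hP u) s0, ?_⟩
  · rintro u p q ⟨l, x, y, h, rfl, rfl⟩
    simp only [π_F hab]
    exact P.part u x y h
  · intro χ
    obtain ⟨l, c, hc⟩ := hHJ (fun w => χ (none, fun t => (w t).1.1) (none, fun t => (w t).1.2))
    refine ⟨⟨F l, fun u x y h => ⟨l, x, y, h, rfl, rfl⟩, fun x => π_F hab l x s0⟩,
      fun u x y h => copy_induced hab l u x y h, c, ?_⟩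
    intro x y hx hy h
    have := hc ⟨(x, y), hx, hy, h⟩
    rw [← this]
    simp only
    congr 1
    · rw [F_a l hx]
      congr 1
      funext t
      rw [Line.coe_apply]
      cases l.idxFun t <;> simp
    · rw [F_b hab l hy]
      congr 1
      funext t
      rw [Line.coe_apply]
      cases l.idxFun t <;> simp

/-- Iterating over a list of pairs of parts and types. -/
theorem stepsI {T : Type} {N : ℕ} (n : T → ℕ) (hn : ∀ u, 2 ≤ n u) (κ : Type) [Finite κ]
    [Nonempty κ] (L : List ((Fin N × Fin N) × T)) (hL : ∀ p ∈ L, p.1.1 ≠ p.1.2) :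
    ∀ (P : Sys T N), (∀ u, (P.Γ u).CliqueFree (n u + 1)) →
    ∃ Q : Sys T N, (∀ u, (Q.Γ u).CliqueFree (n u + 1)) ∧ ∀ χ : Q.X → Q.X → κ, ∃ f : Emb P Q,
      (∀ u x y, (Q.Γ u).Adj (f.f x) (f.f y) → (P.Γ u).Adj x y) ∧
      ∀ p ∈ L, ∃ c : κ,
      ∀ x y, P.π x = p.1.1 → P.π y = p.1.2 → (P.Γ p.2).Adj x y → χ (f.f x) (f.f y) = c := by
  induction L with
  | nil =>
    intro P hP
    exact ⟨P, hP, fun χ => ⟨⟨id, fun u x y h => h, fun x => rfl⟩, fun u x y h => h, by simp⟩⟩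
  | cons p L ih =>
    intro P hP
    obtain ⟨Q1, hQ1, h1⟩ := stepI n hn κ P hP p.1.1 p.1.2 (hL p (by simp)) p.2
    obtain ⟨Q2, hQ2, h2⟩ := ih (fun p hp => hL p (by simp [hp])) Q1 hQ1
    refine ⟨Q2, hQ2, fun χ => ?_⟩
    obtain ⟨g, hgi, hg⟩ := h2 χ
    obtain ⟨f, hfi, c, hf⟩ := h1 (fun x y => χ (g.f x) (g.f y))
    refine ⟨⟨fun x => g.f (f.f x), fun u x y h => g.adj _ _ _ (f.adj _ _ _ h),
      fun x => (g.part _).trans (f.part x)⟩, fun u x y h => hfi u x y (hgi u _ _ h), ?_⟩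
    intro p' hp'
    rcases List.mem_cons.1 hp' with rfl | hp'
    · exact ⟨c, hf⟩
    · obtain ⟨c', hc'⟩ := hg p' hp'
      refine ⟨c', fun x y hx hy h => ?_⟩
      exact hc' _ _ ((f.part x).trans hx) ((f.part y).trans hy) (f.adj _ _ _ h)

/-- Nešetřil–Rödl for edge-coloured graphs, ordered version with induced copies. -/
theorem typedFolkmanI_fin {T : Type} [Finite T] (k : T → ℕ) (hk : ∀ u, 2 ≤ k u) (κ : Type)
    [Finite κ] [Nonempty κ] (n : ℕ) (A : T → SimpleGraph (Fin n))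
    (hA : ∀ u v x y, (A u).Adj x y → (A v).Adj x y → u = v)
    (hfree : ∀ u, (A u).CliqueFree (k u + 1)) :
    ∃ (X : Type) (_ : Finite X) (Γ : T → SimpleGraph X),
      (∀ u v x y, (Γ u).Adj x y → (Γ v).Adj x y → u = v) ∧
      (∀ u, (Γ u).CliqueFree (k u + 1)) ∧
      ∀ χ : X → X → κ, ∃ (e : Fin n → X) (c : T → κ), Function.Injective e ∧
        (∀ i j u, (Γ u).Adj (e i) (e j) → (A u).Adj i j) ∧
        ∀ i j, i < j → ∀ u, (A u).Adj i j → (Γ u).Adj (e i) (e j) ∧ χ (e i) (e j) = c u := by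
  classical
  have := Fintype.ofFinite T
  obtain ⟨N, hN⟩ := ramseyPairs (T → κ) n
  obtain ⟨Q, hQ, h⟩ := stepsI k hk κ
    ((Finset.univ.filter (fun p : (Fin N × Fin N) × T => p.1.1 ≠ p.1.2)).toList) (by simp)
    (P0 n N A hA) (fun u => P0_cliqueFree n N A hA u _ (hfree u))
  refine ⟨Q.X, Q.fin, Q.Γ, Q.disj, hQ, fun χ => ?_⟩
  obtain ⟨f, hfi, hf⟩ := h χ
  have hf' : ∀ (a b : Fin N) (u : T), ∃ c : κ, a ≠ b → ∀ x y, (P0 n N A hA).π x = a →
      (P0 n N A hA).π y = b → ((P0 n N A hA).Γ u).Adj x y → χ (f.f x) (f.f y) = c := by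
    intro a b u
    by_cases hab : a = b
    · exact ⟨Classical.arbitrary κ, fun h => absurd hab h⟩
    · obtain ⟨c, hc⟩ := hf ((a, b), u) (by simpa using hab)
      exact ⟨c, fun _ => hc⟩
  choose c hc using hf'
  obtain ⟨S, y, hS⟩ := hN (fun a b u => c a b u)
  have hinj : Function.Injective fun i : Fin n => f.f (S, i) := by
    intro i j hij
    have h1 := f.part (S, i)
    have h2 := f.part (S, j)
    have h3 : Q.π (f.f (S, i)) = Q.π (f.f (S, j)) := congrArg Q.π hij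
    rw [h1, h2] at h3
    exact S.injective h3
  have hind : ∀ i j u, (Q.Γ u).Adj (f.f (S, i)) (f.f (S, j)) → (A u).Adj i j := by
    intro i j u hadj
    exact (hfi u _ _ hadj).2
  cases y with
  | inl y =>
    refine ⟨fun i => f.f (S, i), y, hinj, hind, fun i j hij u hadj => ?_⟩
    have hadj' : ((P0 n N A hA).Γ u).Adj (S, i) (S, j) := ⟨rfl, hadj⟩
    refine ⟨f.adj _ _ _ hadj', ?_⟩
    have h2 := hS i j hij
    have h3 : (fun u => c (S i) (S j) u) = y := Sum.inl.inj h2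
    rw [← h3]
    exact hc (S i) (S j) u (fun h => hij.ne (S.injective h)) (S, i) (S, j) rfl rfl hadj'
  | inr y =>
    refine ⟨fun i => f.f (S, i), fun _ => Classical.arbitrary κ, hinj, hind,
      fun i j hij u hadj => ?_⟩
    have h2 := hS i j hij
    simp at h2

/-- **Nešetřil–Rödl for edge-coloured graphs** without monochromatic cliques, with induced
copies. -/
theorem typedFolkmanI {T : Type} [Finite T] (k : T → ℕ) (hk : ∀ u, 2 ≤ k u) (κ : Type)
    [Finite κ] [Nonempty κ] (V : Type) [Finite V] (A : T → SimpleGraph V)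
    (hA : ∀ u v x y, (A u).Adj x y → (A v).Adj x y → u = v)
    (hfree : ∀ u, (A u).CliqueFree (k u + 1)) :
    ∃ (X : Type) (_ : Finite X) (Γ : T → SimpleGraph X),
      (∀ u v x y, (Γ u).Adj x y → (Γ v).Adj x y → u = v) ∧
      (∀ u, (Γ u).CliqueFree (k u + 1)) ∧
      ∀ χ : X → X → κ, (∀ x y, χ x y = χ y x) → ∃ (e : V → X) (c : T → κ),
        Function.Injective e ∧ (∀ x y u, (Γ u).Adj (e x) (e y) → (A u).Adj x y) ∧
        ∀ x y u, (A u).Adj x y → (Γ u).Adj (e x) (e y) ∧ χ (e x) (e y) = c u := by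
  classical
  have := Fintype.ofFinite V
  let g : V ≃ Fin (Fintype.card V) := Fintype.equivFin V
  obtain ⟨X, hX, Γ, h1, h2, h3⟩ := typedFolkmanI_fin k hk κ (Fintype.card V)
    (fun u => (A u).comap g.symm) (fun u v x y hu hv => hA u v _ _ hu hv)
    (fun u => (hfree u).comap (SimpleGraph.Embedding.comap g.symm.toEmbedding (A u)).isContained)
  refine ⟨X, hX, Γ, h1, h2, fun χ hχ => ?_⟩
  obtain ⟨e, c, hinj, hind, hc⟩ := h3 χ
  refine ⟨fun x => e (g x), c, hinj.comp g.injective, fun x y u h => ?_, fun x y u hxy => ?_⟩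
  · have := hind _ _ u h
    simpa using this
  have hne : g x ≠ g y := fun h => hxy.ne (g.injective h)
  rcases lt_or_gt_of_ne hne with hlt | hlt
  · exact hc _ _ hlt u (by simpa using hxy)
  · obtain ⟨h4, h5⟩ := hc _ _ hlt u (by simpa using hxy.symm)
    exact ⟨h4.symm, by rw [hχ]; exact h5⟩

end Pool.Agent.R549.RE
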